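import Mathlib
import Pool.Agent.Lib.helper4.FreeTukey

set_option autoImplicit false

namespace Pool.Agent.Results.MP_f56686_gt.NotTukey

open Set Filter Topology Uniformity

/-- `P ≤_T Q`: some map `Q → P` sends cofinal sets to cofinal sets. -/
def TukeyLE (P Q : Type) [Preorder P] [Preorder Q] : Prop :=
  ∃ ψ : Q → P, ∀ C : Set Q, IsCofinal C → IsCofinal (ψ '' C)

/-- An `ω`-narrow uniform space. -/
def Narrow (X : Type) [UniformSpace X] : Prop :=
  ∀ U ∈ 𝓤 X, ∃ A : Set X, A.Countable ∧ ∀ y, ∃ a ∈ A, (a, y) ∈ U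

/-- Group topologies on the free group for which the canonical map of `X` is uniformly continuous
for the two-sided uniformity: both `x⁻¹ y` and `x y⁻¹` tend to `1` along the entourage filter. -/
def Adm (X : Type) [UniformSpace X] (t : TopologicalSpace (FreeGroup X)) : Prop :=
  @IsTopologicalGroup _ t _ ∧
    Tendsto (fun p : X × X => (FreeGroup.of p.1)⁻¹ * FreeGroup.of p.2) (𝓤 X) (@nhds _ t 1) ∧
    Tendsto (fun p : X × X => FreeGroup.of p.1 * (FreeGroup.of p.2)⁻¹) (𝓤 X) (@nhds _ t 1)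

theorem result : ∃ (X : Type) (_ : UniformSpace X), T2Space X ∧ Narrow X ∧
    ∃ t : TopologicalSpace (FreeGroup X), (Adm X t ∧ ∀ t', Adm X t' → t ≤ t') ∧
      ¬ TukeyLE (@nhds _ t 1).setsᵒᵈ (ℕ → (𝓤 X).setsᵒᵈ) := by
  obtain ⟨X, u, a, b, t, c, d⟩ := Pool.Agent.Lib.helper4.FreeTukey.main
  refine ⟨X, u, a, b, t, c, fun ⟨ψ, h⟩ => d ⟨ψ ∘ Prod.snd, fun C hC => ?_⟩⟩
  rw [image_comp]
  refine h _ fun q => ?_
  obtain ⟨r, e, f⟩ := hC (0, q)
  exact ⟨r.2, ⟨r, e, rfl⟩, f.2⟩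

end Pool.Agent.Results.MP_f56686_gt.NotTukey
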